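import Mathlib
import Pool.Agent.Lib.MP_7dfaf1_gt.Space

set_option autoImplicit false
open TopologicalSpace

/-!
Purisch's question, in the words of the problem: there is a compact Hausdorff separable
zero-dimensional monotonically normal space which is not orderable.  The space is moreover
first countable, and no continuous injection of it into a linearly ordered topological space
exists.
-/

namespace Pool.Agent.Results.MP_7dfaf1_gt.NotWeaklyOrderable

open Pool.Agent.Lib.MP_7dfaf1_gt

universe u

theorem firstCountable : FirstCountableTopology Sp := by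
  refine ⟨fun p => ?_⟩
  by_cases hp : Iso p
  · have : nhds p = pure p := (isOpen_singleton_iff_nhds_eq_pure p).mp (isOpen_singleton_of_Iso hp)
    rw [this]
    infer_instance
  · have hb : (nhds p).HasBasis (fun _ : ℕ => True) fun n => NN p (1 / ((n : ℝ) + 1)) := by
      refine ⟨fun s => ⟨fun hs => ?_, ?_⟩⟩
      · obtain ⟨U, hU, hUo, hpU⟩ := mem_nhds_iff.mp hs
        obtain ⟨d, hd, hN⟩ := exists_NN_subset hp hUo hpU
        obtain ⟨n, hn⟩ := exists_nat_one_div_lt hd
        exact ⟨n, trivial, (NN_mono hn.le).trans (hN.trans hU)⟩
      · rintro ⟨n, -, hn⟩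
        exact mem_nhds_iff.mpr ⟨_, hn, isOpen_NN _ _, self_mem_NN hp (by positivity)⟩
    exact hb.isCountablyGenerated

/-- on a compact space, a coarser Hausdorff topology is the topology itself -/
theorem eq_of_le {X : Type} {t1 t2 : TopologicalSpace X} (h : t1 ≤ t2)
    (hc : @CompactSpace X t1) (ht : @T2Space X t2) : t1 = t2 := by
  refine le_antisymm h fun s hs => ?_
  have hid : @Continuous X X t1 t2 id := continuous_id_of_le h
  have hcl : @IsClosedMap X X t1 t2 id := @Continuous.isClosedMap X X t1 t2 hc ht id hid
  have h1 : @IsClosed X t1 sᶜ := (@isClosed_compl_iff X t1 s).mpr hs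
  have h2 : @IsClosed X t2 sᶜ := by
    have := hcl sᶜ h1
    rwa [Set.image_id] at this
  exact (@isClosed_compl_iff X t2 s).mp h2

theorem not_order (o : LinearOrder Sp)
    (h : instTopologicalSpaceSp = @Preorder.topology Sp o.toPartialOrder.toPreorder) : False := by
  let _ := o
  have : OrderTopology Sp := ⟨h⟩
  exact not_orderable

theorem not_weaklyOrderable (L : Type u) [LinearOrder L] [TopologicalSpace L] [OrderTopology L]
    (e : Sp → L) (he : Continuous e) (hi : Function.Injective e) : False := by
  let o : LinearOrder Sp := LinearOrder.lift' e hi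
  have hle : instTopologicalSpaceSp ≤ @Preorder.topology Sp o.toPartialOrder.toPreorder := by
    refine le_generateFrom ?_
    rintro s ⟨a, rfl | rfl⟩
    · exact isOpen_Ioi.preimage he
    · exact isOpen_Iio.preimage he
  have ht2 : @T2Space Sp (@Preorder.topology Sp o.toPartialOrder.toPreorder) := by
    let _ : TopologicalSpace Sp := @Preorder.topology Sp o.toPartialOrder.toPreorder
    have : OrderTopology Sp := ⟨rfl⟩
    infer_instance
  exact not_order o (eq_of_le hle inferInstance ht2)

theorem result :
    ∃ (X : Type) (t : TopologicalSpace X),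
      T2Space X ∧ CompactSpace X ∧ SeparableSpace X ∧ FirstCountableTopology X ∧
      IsTopologicalBasis {s : Set X | IsClopen s} ∧
      (∃ G : X → Set X → Set X,
        (∀ (x : X) (U : Set X), IsOpen U → x ∈ U →
            IsOpen (G x U) ∧ x ∈ G x U ∧ G x U ⊆ U) ∧
        (∀ (x y : X) (U V : Set X), IsOpen U → IsOpen V → x ∈ U → y ∈ V →
            (G x U ∩ G y V).Nonempty → x ∈ V ∨ y ∈ U)) ∧
      (∀ o : LinearOrder X, t ≠ @Preorder.topology X o.toPartialOrder.toPreorder) ∧
      (∀ (L : Type u) [LinearOrder L] [TopologicalSpace L] [OrderTopology L] (e : X → L),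
        Continuous e → ¬ Function.Injective e) :=
  ⟨Sp, instTopologicalSpaceSp, inferInstance, inferInstance, inferInstance, firstCountable,
    isTopologicalBasis_isClopen, ⟨HH, HH_spec⟩, fun o h => not_order o h,
    fun L _ _ _ e he hi => not_weaklyOrderable L e he hi⟩

end Pool.Agent.Results.MP_7dfaf1_gt.NotWeaklyOrderable
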